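import Pool.Agent.Helper78_E.Stmts

/-!
# Module BIP: bipolar theorems
-/

namespace Pool.Agent.H78E

open MeasureTheory Filter Topology Complex

noncomputable section

variable {φ : ℝ → ℝ}

theorem LInf.add72 {g h : ℝ → ℂ} (hg : LInf φ g) (hh : LInf φ h) : LInf φ (g + h) := by
  obtain ⟨mg, Cg, bg⟩ := hg
  obtain ⟨mh, Ch, bh⟩ := hh
  refine ⟨mg.add mh, Cg + Ch, ?_⟩
  filter_upwards [bg, bh] with t h1 h2
  calc ‖(g + h) t‖ ≤ ‖g t‖ + ‖h t‖ := norm_add_le _ _
    _ ≤ (Cg + Ch) * φ t := by linarith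

theorem LInf.smul72 {g : ℝ → ℂ} (hg : LInf φ g) (c : ℂ) : LInf φ (c • g) := by
  obtain ⟨mg, Cg, bg⟩ := hg
  refine ⟨mg.const_smul c, ‖c‖ * Cg, ?_⟩
  filter_upwards [bg] with t h1
  calc ‖(c • g) t‖ = ‖c‖ * ‖g t‖ := by rw [Pi.smul_apply, norm_smul]
    _ ≤ ‖c‖ * (Cg * φ t) := by gcongr
    _ = _ := by ring

theorem LInf.zero72 : LInf φ (0 : ℝ → ℂ) :=
  ⟨aestronglyMeasurable_const, 0, Eventually.of_forall fun t => by simp⟩

theorem L1.add72 {f g : ℝ → ℂ} (hf : L1 φ f) (hg : L1 φ g) (hφ : IsWeight φ) : L1 φ (f + g) := by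
  refine ⟨hf.1.add hg.1, ?_⟩
  refine (hf.2.add hg.2).mono' ?_ ?_
  · exact hφ.meas.aestronglyMeasurable.mul (hf.1.add hg.1).norm
  · refine Eventually.of_forall fun t => ?_
    have h0 : 0 ≤ φ t := zero_le_one.trans (hφ.one_le t)
    rw [Real.norm_eq_abs, abs_mul, abs_of_nonneg h0, abs_norm]
    calc φ t * ‖(f + g) t‖ ≤ φ t * (‖f t‖ + ‖g t‖) := by
          gcongr; exact norm_add_le _ _
      _ = _ := by simp; ring

theorem L1.smul72 {f : ℝ → ℂ} (hf : L1 φ f) (c : ℂ) : L1 φ (c • f) := by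
  refine ⟨hf.1.const_smul c, ?_⟩
  refine (hf.2.const_mul ‖c‖).congr (Eventually.of_forall fun t => ?_)
  simp only [Pi.smul_apply, norm_smul]
  ring

theorem L1.zero72 : L1 φ (0 : ℝ → ℂ) := ⟨aestronglyMeasurable_const, by simp⟩

/-- products are integrable -/
theorem L1.mulInt72 {f h : ℝ → ℂ} (hf : L1 φ f) (hh : LInf φ h) :
    Integrable (fun t => f t * h t) volume := by
  obtain ⟨mh, C, bh⟩ := hh
  refine (hf.2.const_mul C).mono' (hf.1.mul mh) ?_
  filter_upwards [bh] with t h1
  rw [norm_mul]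
  calc ‖f t‖ * ‖h t‖ ≤ ‖f t‖ * (C * φ t) := by gcongr
    _ = C * (φ t * ‖f t‖) := by ring

theorem aesm_shift72 {g : ℝ → ℂ} (hg : AEStronglyMeasurable g volume) (τ : ℝ) :
    AEStronglyMeasurable (fun t => g (t + τ)) volume :=
  hg.comp_quasiMeasurePreserving (measurePreserving_add_right volume τ).quasiMeasurePreserving

theorem LInf.shift72 (hφ : IsWeight φ) {g : ℝ → ℂ} (hg : LInf φ g) (τ : ℝ) :
    LInf φ (H78E.shift τ g) := by
  obtain ⟨mg, C, bg⟩ := hg
  refine ⟨aesm_shift72 mg τ, |C| * φ τ, ?_⟩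
  have h1 : ∀ᵐ t : ℝ, ‖g (t + τ)‖ ≤ C * φ (t + τ) :=
    (measurePreserving_add_right volume τ).quasiMeasurePreserving.ae bg
  filter_upwards [h1] with t ht
  have h0 : 0 ≤ φ (t + τ) := zero_le_one.trans (hφ.one_le _)
  calc ‖g (t + τ)‖ ≤ C * φ (t + τ) := ht
    _ ≤ |C| * φ (t + τ) := by gcongr; exact le_abs_self C
    _ ≤ |C| * (φ t * φ τ) := by gcongr; exact hφ.submul t τ
    _ = _ := by ring

/-- translates of `L^1` functions -/
theorem L1.shift72 (hφ : IsWeight φ) {f : ℝ → ℂ} (hf : L1 φ f) (τ : ℝ) :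
    L1 φ (fun t => f (t - τ)) := by
  have hm : AEStronglyMeasurable (fun t => f (t - τ)) volume := by
    have := aesm_shift72 hf.1 (-τ)
    simpa [sub_eq_add_neg] using this
  refine ⟨hm, ?_⟩
  have h1 : Integrable (fun t => φ (t + τ) * ‖f t‖) volume := by
    refine (hf.2.const_mul (φ τ)).mono' ?_ (Eventually.of_forall fun t => ?_)
    · exact (hφ.meas.comp (measurable_id.add_const τ)).aestronglyMeasurable.mul hf.1.norm
    · have h0 : 0 ≤ φ (t + τ) := zero_le_one.trans (hφ.one_le _)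
      rw [Real.norm_eq_abs, abs_mul, abs_of_nonneg h0, abs_norm]
      calc φ (t + τ) * ‖f t‖ ≤ (φ t * φ τ) * ‖f t‖ := by gcongr; exact hφ.submul t τ
        _ = _ := by ring
  have h2 := h1.comp_sub_right τ
  refine h2.congr (Eventually.of_forall fun t => ?_)
  simp

theorem integral_shift72 (f g : ℝ → ℂ) (τ : ℝ) :
    ∫ t : ℝ, f t * g (t + τ) = ∫ t : ℝ, f (t - τ) * g t := by
  have := integral_sub_right_eq_self (μ := (volume : Measure ℝ)) (fun t => f t * g (t + τ)) τ
  rw [← this]
  simp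

/-- finite duality: if no linear combination of the functionals separates `h` from `V` then the
values at `h` are attained in `V` -/
theorem finite_dual72 (hφ : IsWeight φ) (V : Submodule ℂ (ℝ → ℂ)) (hV : ∀ v ∈ V, LInf φ v)
    (h : ℝ → ℂ) (hh : LInf φ h) (F : Finset (ℝ → ℂ)) (hF : ∀ f ∈ F, L1 φ f)
    (hsep : ∀ f : ℝ → ℂ, L1 φ f → (∀ v ∈ V, ∫ t : ℝ, f t * v t = 0) → ∫ t : ℝ, f t * h t = 0) :
    ∃ v ∈ V, ∀ f ∈ F, ∫ t : ℝ, f t * v t = ∫ t : ℝ, f t * h t := by
  classical
  let T : V →ₗ[ℂ] (F → ℂ) :=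
    { toFun := fun v f => ∫ t : ℝ, (f : ℝ → ℂ) t * (v : ℝ → ℂ) t
      map_add' := by
        intro v w
        funext f
        change _ = (∫ t : ℝ, (f : ℝ → ℂ) t * (v : ℝ → ℂ) t) + ∫ t : ℝ, (f : ℝ → ℂ) t * (w : ℝ → ℂ) t
        rw [← integral_add ((hF f f.2).mulInt72 (hV v v.2))
          ((hF f f.2).mulInt72 (hV w w.2))]
        refine integral_congr_ae (Eventually.of_forall fun t => ?_)
        simp only [Submodule.coe_add, Pi.add_apply]
        ring
      map_smul' := by
        intro c v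
        funext f
        simp only [Submodule.coe_smul, Pi.smul_apply, RingHom.id_apply, smul_eq_mul]
        rw [← integral_const_mul]
        refine integral_congr_ae (Eventually.of_forall fun t => ?_)
        simp only
        ring }
  by_cases hmem : (fun f : F => ∫ t : ℝ, (f : ℝ → ℂ) t * h t) ∈ LinearMap.range T
  · obtain ⟨v, hv⟩ := hmem
    exact ⟨v, v.2, fun f hf => congrFun hv ⟨f, hf⟩⟩
  · exfalso
    obtain ⟨c, hc1, hc2⟩ := Submodule.exists_dual_map_eq_bot_of_notMem hmem inferInstance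
    -- the coefficients of `c`
    set f0 : ℝ → ℂ := ∑ f : F, (c (Pi.single f 1)) • (f : ℝ → ℂ) with hf0
    have hL1 : L1 φ f0 := by
      have : ∀ s : Finset F, L1 φ (∑ f ∈ s, (c (Pi.single f 1)) • (f : ℝ → ℂ)) := by
        intro s
        induction s using Finset.induction_on with
        | empty => simpa using (L1.zero72 (φ := φ))
        | insert a s ha ih =>
          rw [Finset.sum_insert ha]
          exact L1.add72 ((hF a a.2).smul72 _) ih hφ
      exact this _
    have hint : ∀ w : ℝ → ℂ, LInf φ w → ∫ t : ℝ, f0 t * w t =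
        c (fun f : F => ∫ t : ℝ, (f : ℝ → ℂ) t * w t) := by
      intro w hw
      have h1 : c (fun f : F => ∫ t : ℝ, (f : ℝ → ℂ) t * w t) =
          ∑ f : F, (∫ t : ℝ, (f : ℝ → ℂ) t * w t) * c (Pi.single f 1) := by
        conv_lhs => rw [pi_eq_sum_univ' (fun f : F => ∫ t : ℝ, (f : ℝ → ℂ) t * w t)]
        rw [map_sum]
        refine Finset.sum_congr rfl fun f _ => ?_
        rw [map_smul, smul_eq_mul]
      rw [h1]
      have h2 : ∀ f : F, (∫ t : ℝ, (f : ℝ → ℂ) t * w t) * c (Pi.single f 1) =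
          ∫ t : ℝ, ((c (Pi.single f 1)) • (f : ℝ → ℂ)) t * w t := by
        intro f
        rw [← integral_mul_const]
        refine integral_congr_ae (Eventually.of_forall fun t => ?_)
        simp only [Pi.smul_apply, smul_eq_mul]
        ring
      simp_rw [h2]
      rw [← integral_finsetSum]
      · refine integral_congr_ae (Eventually.of_forall fun t => ?_)
        simp only [hf0, Finset.sum_apply, Finset.sum_mul]
      · intro f _
        exact L1.mulInt72 ((hF f f.2).smul72 _) hw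
    have hzero : ∀ v ∈ V, ∫ t : ℝ, f0 t * v t = 0 := by
      intro v hv
      rw [hint v (hV v hv)]
      have h3 : (fun f : F => ∫ t : ℝ, (f : ℝ → ℂ) t * v t) ∈ LinearMap.range T := ⟨⟨v, hv⟩, rfl⟩
      have h4 : c (fun f : F => ∫ t : ℝ, (f : ℝ → ℂ) t * v t) ∈ (LinearMap.range T).map c :=
        Submodule.mem_map_of_mem h3
      rw [hc2] at h4
      simpa using h4
    have := hsep f0 hL1 hzero
    rw [hint h hh] at this
    exact hc1 this

theorem bipolar : BipolarStmt := by
  intro φ hφ g h hg hh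
  constructor
  · rintro ⟨-, hB⟩ f hf hfg
    let V : Submodule ℂ (ℝ → ℂ) :=
      { carrier := {v | LInf φ v ∧ ∀ f : ℝ → ℂ, L1 φ f →
          (∀ s : ℝ, ∫ t : ℝ, f t * g (t + s) = 0) → ∫ t : ℝ, f t * v t = 0}
        add_mem' := by
          rintro v w ⟨hv, hv2⟩ ⟨hw, hw2⟩
          refine ⟨hv.add72 hw, fun f hf hfg => ?_⟩
          have h1 : ∫ t : ℝ, f t * (v + w) t = (∫ t : ℝ, f t * v t) + ∫ t : ℝ, f t * w t := by
            rw [← integral_add (hf.mulInt72 hv) (hf.mulInt72 hw)]
            refine integral_congr_ae (Eventually.of_forall fun t => ?_)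
            simp only [Pi.add_apply]
            ring
          rw [h1, hv2 f hf hfg, hw2 f hf hfg, add_zero]
        zero_mem' := ⟨LInf.zero72, fun f _ _ => by simp⟩
        smul_mem' := by
          rintro c v ⟨hv, hv2⟩
          refine ⟨hv.smul72 c, fun f hf hfg => ?_⟩
          have h1 : ∫ t : ℝ, f t * (c • v) t = c * ∫ t : ℝ, f t * v t := by
            rw [← integral_const_mul]
            refine integral_congr_ae (Eventually.of_forall fun t => ?_)
            simp only [Pi.smul_apply, smul_eq_mul]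
            ring
          rw [h1, hv2 f hf hfg, mul_zero] }
    have hmem : h ∈ V := by
      refine hB V (fun v hv => hv.1) ⟨hg, fun f hf hfg => by simpa using hfg 0⟩ ?_ ?_
      · rintro v ⟨hv, hv2⟩ τ
        refine ⟨LInf.shift72 hφ hv τ, fun f hf hfg => ?_⟩
        have h1 : ∫ t : ℝ, f t * H78E.shift τ v t = ∫ t : ℝ, f (t - τ) * v t :=
          integral_shift72 f v τ
        rw [h1]
        refine hv2 _ (hf.shift72 hφ τ) fun s => ?_
        have h2 := integral_shift72 f (fun t => g (t + s)) τ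
        rw [← h2]
        have h3 := hfg (τ + s)
        simpa [add_assoc] using h3
      · intro u hu hlim
        refine ⟨hu, fun f hf hfg => ?_⟩
        by_contra hne
        have hpos : 0 < ‖∫ t : ℝ, f t * u t‖ := norm_pos_iff.2 hne
        obtain ⟨v, ⟨hv, hv2⟩, hv3⟩ := hlim {f} (by simpa using hf) _ hpos
        have h1 := hv3 f (Finset.mem_singleton_self f)
        have h2 : ∫ t : ℝ, f t * (u t - v t) = (∫ t : ℝ, f t * u t) - ∫ t : ℝ, f t * v t := by
          rw [← integral_sub (hf.mulInt72 hu) (hf.mulInt72 hv)]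
          refine integral_congr_ae (Eventually.of_forall fun t => ?_)
          simp only
          ring
        rw [h2, hv2 f hf hfg, sub_zero] at h1
        exact lt_irrefl _ h1
    exact hmem.2 f hf hfg
  · intro hcond
    refine ⟨hh, fun V hV hgV hinv hcl => hcl h hh fun F hF ε hε => ?_⟩
    obtain ⟨v, hv, hv2⟩ := finite_dual72 hφ V hV h hh F hF fun f hf hf0 =>
      hcond f hf fun s => hf0 _ (hinv g hgV s)
    refine ⟨v, hv, fun f hf => ?_⟩
    have h2 : ∫ t : ℝ, f t * (h t - v t) = (∫ t : ℝ, f t * h t) - ∫ t : ℝ, f t * v t := by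
      rw [← integral_sub ((hF f hf).mulInt72 hh) ((hF f hf).mulInt72 (hV v hv))]
      refine integral_congr_ae (Eventually.of_forall fun t => ?_)
      simp only
      ring
    rw [h2, hv2 f hf, sub_self, norm_zero]
    exact hε

theorem LInfPos.shiftPos72 (hφ : IsWeight φ) {g : ℝ → ℂ} (hg : LInfPos φ g) (τ : ℝ) :
    LInfPos φ (H78E.shiftPos τ g) := by
  obtain ⟨h1, C, h2⟩ := LInf.shift72 hφ hg.1 τ
  refine ⟨⟨?_, |C|, ?_⟩, ?_⟩
  · have : H78E.shiftPos τ g = Set.indicator (Set.Ici 0) (H78E.shift τ g) := by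
      funext t
      simp only [H78E.shiftPos, H78E.shift, Set.indicator, Set.mem_Ici]
    rw [this]
    exact h1.indicator measurableSet_Ici
  · filter_upwards [h2] with t ht
    have h0 : 0 ≤ φ t := zero_le_one.trans (hφ.one_le _)
    simp only [H78E.shiftPos]
    split
    · calc ‖g (t + τ)‖ ≤ C * φ t := ht
        _ ≤ |C| * φ t := by gcongr; exact le_abs_self C
    · rw [norm_zero]; positivity
  · intro t ht
    simp only [H78E.shiftPos, if_neg (not_le.2 ht)]

theorem integral_shiftPos72 {f g : ℝ → ℂ} (hf : ∀ t : ℝ, t < 0 → f t = 0) (τ : ℝ) :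
    ∫ t : ℝ, f t * H78E.shiftPos τ g t = ∫ t : ℝ, f t * g (t + τ) := by
  refine integral_congr_ae (Eventually.of_forall fun t => ?_)
  simp only [H78E.shiftPos]
  split
  · rfl
  · rename_i h
    rw [hf t (not_le.1 h)]; simp

theorem bipolarPos : BipolarPosStmt := by
  intro φ hφ g h hg hh
  constructor
  · rintro ⟨-, hB⟩ f hf hf0 hfg
    let V : Submodule ℂ (ℝ → ℂ) :=
      { carrier := {v | LInfPos φ v ∧ ∀ f : ℝ → ℂ, L1 φ f → (∀ t : ℝ, t < 0 → f t = 0) →
          (∀ s : ℝ, 0 ≤ s → ∫ t : ℝ, f t * g (t + s) = 0) → ∫ t : ℝ, f t * v t = 0}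
        add_mem' := by
          rintro v w ⟨hv, hv2⟩ ⟨hw, hw2⟩
          refine ⟨⟨hv.1.add72 hw.1, fun t ht => ?_⟩, fun f hf hf0 hfg => ?_⟩
          · rw [Pi.add_apply, hv.2 t ht, hw.2 t ht, add_zero]
          · have h1 : ∫ t : ℝ, f t * (v + w) t = (∫ t : ℝ, f t * v t) + ∫ t : ℝ, f t * w t := by
              rw [← integral_add (hf.mulInt72 hv.1) (hf.mulInt72 hw.1)]
              refine integral_congr_ae (Eventually.of_forall fun t => ?_)
              simp only [Pi.add_apply]
              ring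
            rw [h1, hv2 f hf hf0 hfg, hw2 f hf hf0 hfg, add_zero]
        zero_mem' := ⟨⟨LInf.zero72, fun _ _ => rfl⟩, fun f _ _ _ => by simp⟩
        smul_mem' := by
          rintro c v ⟨hv, hv2⟩
          refine ⟨⟨hv.1.smul72 c, fun t ht => ?_⟩, fun f hf hf0 hfg => ?_⟩
          · rw [Pi.smul_apply, hv.2 t ht, smul_zero]
          · have h1 : ∫ t : ℝ, f t * (c • v) t = c * ∫ t : ℝ, f t * v t := by
              rw [← integral_const_mul]
              refine integral_congr_ae (Eventually.of_forall fun t => ?_)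
              simp only [Pi.smul_apply, smul_eq_mul]
              ring
            rw [h1, hv2 f hf hf0 hfg, mul_zero] }
    have hmem : h ∈ V := by
      refine hB V (fun v hv => hv.1) ⟨hg, fun f hf hf0 hfg => by simpa using hfg 0 le_rfl⟩ ?_ ?_
      · rintro v ⟨hv, hv2⟩ τ hτ
        refine ⟨LInfPos.shiftPos72 hφ hv τ, fun f hf hf0 hfg => ?_⟩
        rw [integral_shiftPos72 hf0, integral_shift72 f v τ]
        refine hv2 _ (hf.shift72 hφ τ) (fun t ht => hf0 _ (by linarith)) fun s hs => ?_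
        have h2 := integral_shift72 f (fun t => g (t + s)) τ
        rw [← h2]
        have h3 := hfg (τ + s) (by linarith)
        simpa [add_assoc] using h3
      · intro u hu hlim
        refine ⟨hu, fun f hf hf0 hfg => ?_⟩
        by_contra hne
        have hpos : 0 < ‖∫ t : ℝ, f t * u t‖ := norm_pos_iff.2 hne
        obtain ⟨v, ⟨hv, hv2⟩, hv3⟩ := hlim {f} (by simpa using hf) _ hpos
        have h1 := hv3 f (Finset.mem_singleton_self f)
        have h2 : ∫ t : ℝ, f t * (u t - v t) = (∫ t : ℝ, f t * u t) - ∫ t : ℝ, f t * v t := by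
          rw [← integral_sub (hf.mulInt72 hu.1) (hf.mulInt72 hv.1)]
          refine integral_congr_ae (Eventually.of_forall fun t => ?_)
          simp only
          ring
        rw [h2, hv2 f hf hf0 hfg, sub_zero] at h1
        exact lt_irrefl _ h1
    exact hmem.2 f hf hf0 hfg
  · intro hcond
    refine ⟨hh, fun V hV hgV hinv hcl => hcl h hh fun F hF ε hε => ?_⟩
    have hsep : ∀ f : ℝ → ℂ, L1 φ f → (∀ v ∈ V, ∫ t : ℝ, f t * v t = 0) →
        ∫ t : ℝ, f t * h t = 0 := by
      intro f hf hfV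
      -- truncate `f`
      set f1 : ℝ → ℂ := Set.indicator (Set.Ici 0) f with hf1
      have hf1L : L1 φ f1 := by
        refine ⟨hf.1.indicator measurableSet_Ici, ?_⟩
        have h1 := hf.2.indicator (measurableSet_Ici (a := (0 : ℝ)))
        refine h1.congr (Eventually.of_forall fun t => ?_)
        simp only [hf1, Set.indicator]
        split <;> simp
      have hf10 : ∀ t : ℝ, t < 0 → f1 t = 0 := by
        intro t ht
        simp only [hf1, Set.indicator, Set.mem_Ici, if_neg (not_le.2 ht)]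
      have hagree : ∀ w : ℝ → ℂ, (∀ t : ℝ, t < 0 → w t = 0) →
          ∫ t : ℝ, f1 t * w t = ∫ t : ℝ, f t * w t := by
        intro w hw
        refine integral_congr_ae (Eventually.of_forall fun t => ?_)
        simp only [hf1, Set.indicator, Set.mem_Ici]
        split
        · rfl
        · rename_i h'
          rw [hw t (not_le.1 h')]; simp
      rw [← hagree h hh.2]
      refine hcond f1 hf1L hf10 fun s hs => ?_
      rcases hs.eq_or_lt with rfl | hs
      · have h3 := hfV g hgV
        rw [← hagree g hg.2] at h3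
        simpa using h3
      · have h3 := hfV _ (hinv g hgV s hs)
        rw [← hagree _ (LInfPos.shiftPos72 hφ hg s).2, integral_shiftPos72 hf10] at h3
        exact h3
    obtain ⟨v, hv, hv2⟩ := finite_dual72 hφ V (fun v hv => (hV v hv).1) h hh.1 F hF hsep
    refine ⟨v, hv, fun f hf => ?_⟩
    have h2 : ∫ t : ℝ, f t * (h t - v t) = (∫ t : ℝ, f t * h t) - ∫ t : ℝ, f t * v t := by
      rw [← integral_sub ((hF f hf).mulInt72 hh.1)
        ((hF f hf).mulInt72 (hV v hv).1)]
      refine integral_congr_ae (Eventually.of_forall fun t => ?_)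
      simp only
      ring
    rw [h2, hv2 f hf, sub_self, norm_zero]
    exact hε

end

end Pool.Agent.H78E
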