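import Pool.Agent.Helper78_E.Stmts

/-!
# Module LAG
-/

namespace Pool.Agent.H78E.H72

open MeasureTheory Filter Topology Complex
open Pool.Agent.H78E

noncomputable section

/-- Bessel for absolutely convergent Fourier series on the circle. -/
theorem bessel_circle (β : ℕ → ℂ) (hβ : Summable fun n => ‖β n‖) (M : ℝ)
    (hM : ∀ z : ℂ, ‖z‖ = 1 → ‖∑' n, β n * z ^ n‖ ≤ M) :
    ∀ N : ℕ, ∑ n ∈ Finset.range N, ‖β n‖ ^ 2 ≤ M ^ 2 := by
  intro N
  have : Fact (0 < (1 : ℝ)) := ⟨one_pos⟩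
  have hM0 : 0 ≤ M := (norm_nonneg _).trans (hM 1 (by simp))
  have hsum : Summable fun n : ℕ => β n • (fourier (n : ℤ) : C(AddCircle (1 : ℝ), ℂ)) := by
    refine Summable.of_norm ?_
    refine hβ.congr fun n => ?_
    rw [norm_smul, fourier_norm, mul_one]
  set F : C(AddCircle (1 : ℝ), ℂ) := ∑' n : ℕ, β n • (fourier (n : ℤ) : C(AddCircle (1 : ℝ), ℂ))
    with hF
  have hFM : ‖F‖ ≤ M := by
    rw [ContinuousMap.norm_le _ hM0]
    intro x
    have h1 : F x = ∑' n : ℕ, β n * (fourier 1 x : ℂ) ^ n := by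
      have h2 := (ContinuousMap.evalCLM ℂ x).map_tsum hsum
      have h3 : F x = ContinuousMap.evalCLM ℂ x F := rfl
      rw [h3, hF, h2]
      refine tsum_congr fun n => ?_
      have h4 : (fourier (n : ℤ) : C(AddCircle (1 : ℝ), ℂ)) x = (fourier 1 x : ℂ) ^ n := by
        induction n with
        | zero => simp
        | succ n ih =>
          rw [pow_succ, ← ih]
          push_cast
          rw [fourier_add]
      change (β n • (fourier (n : ℤ) : C(AddCircle (1 : ℝ), ℂ))) x = _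
      rw [ContinuousMap.smul_apply, h4, smul_eq_mul]
    rw [h1]
    refine hM _ ?_
    exact Circle.norm_coe _
  -- in `L²`
  set Φ : C(AddCircle (1 : ℝ), ℂ) →L[ℂ] Lp ℂ 2 (@AddCircle.haarAddCircle (1 : ℝ) _) :=
    ContinuousMap.toLp (E := ℂ) 2 AddCircle.haarAddCircle ℂ with hΦ
  have hnorm : ‖Φ F‖ ≤ M := by
    have h1 := (ContinuousMap.toLp (E := ℂ) 2 (@AddCircle.haarAddCircle (1 : ℝ) _) ℂ).le_opNorm F
    have h2 : ‖(ContinuousMap.toLp (E := ℂ) 2 (@AddCircle.haarAddCircle (1 : ℝ) _) ℂ)‖ ≤ 1 := by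
      refine (ContinuousMap.toLp_norm_le (@AddCircle.haarAddCircle (1 : ℝ) _)).trans ?_
      simp [measureUnivNNReal]
    calc ‖Φ F‖ ≤ _ := h1
      _ ≤ 1 * ‖F‖ := by gcongr
      _ ≤ M := by rw [one_mul]; exact hFM
  have hon : Orthonormal ℂ (@fourierLp (1 : ℝ) _ 2 _) := orthonormal_fourier
  have hcoef : ∀ m : ℕ, inner ℂ (@fourierLp (1 : ℝ) _ 2 _ (m : ℤ)) (Φ F) = β m := by
    intro m
    have h2 := ((innerSL ℂ (@fourierLp (1 : ℝ) _ 2 _ (m : ℤ))).comp Φ).map_tsum hsum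
    have h3 : inner ℂ (@fourierLp (1 : ℝ) _ 2 _ (m : ℤ)) (Φ F) =
      ((innerSL ℂ (@fourierLp (1 : ℝ) _ 2 _ (m : ℤ))).comp Φ) F := rfl
    rw [h3, hF, h2]
    rw [tsum_eq_single m]
    · rw [map_smul, smul_eq_mul]
      have h4 : ((innerSL ℂ (@fourierLp (1 : ℝ) _ 2 _ (m : ℤ))).comp Φ)
          (fourier (m : ℤ) : C(AddCircle (1 : ℝ), ℂ)) =
          inner ℂ (@fourierLp (1 : ℝ) _ 2 _ (m : ℤ)) (@fourierLp (1 : ℝ) _ 2 _ (m : ℤ)) := rfl
      rw [h4, inner_self_eq_norm_sq_to_K, hon.1]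
      simp
    · intro n hn
      rw [map_smul, smul_eq_mul]
      have h4 : ((innerSL ℂ (@fourierLp (1 : ℝ) _ 2 _ (m : ℤ))).comp Φ)
          (fourier (n : ℤ) : C(AddCircle (1 : ℝ), ℂ)) =
          inner ℂ (@fourierLp (1 : ℝ) _ 2 _ (m : ℤ)) (@fourierLp (1 : ℝ) _ 2 _ (n : ℤ)) := rfl
      rw [h4, hon.2 (by exact_mod_cast hn.symm), mul_zero]
  have hb := hon.sum_inner_products_le (Φ F) (s := (Finset.range N).map
    ⟨fun n : ℕ => (n : ℤ), Nat.cast_injective⟩)
  rw [Finset.sum_map] at hb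
  simp only [Function.Embedding.coeFn_mk, hcoef] at hb
  refine hb.trans ?_
  gcongr

/-- coefficients of a bounded analytic function on the disc are square summable -/
theorem sq_summable_coeff (b : ℕ → ℂ) (f : ℂ → ℂ) (M : ℝ)
    (hf : ∀ z : ℂ, ‖z‖ < 1 → HasSum (fun n => b n * z ^ n) (f z))
    (hM : ∀ z : ℂ, ‖z‖ < 1 → ‖f z‖ ≤ M) : Summable fun n => ‖b n‖ ^ 2 := by
  have hM0 : 0 ≤ M := (norm_nonneg _).trans (hM 0 (by simp))
  refine summable_of_sum_range_le (c := M ^ 2) (fun n => by positivity) fun N => ?_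
  have hr : ∀ r : ℝ, 0 < r → r < 1 → ∑ n ∈ Finset.range N, (‖b n‖ * r ^ n) ^ 2 ≤ M ^ 2 := by
    intro r hr0 hr1
    obtain ⟨r', hr'1, hr'2⟩ := exists_between hr1
    have hs : Summable fun n => ‖b n * (r : ℂ) ^ n‖ := by
      have h1 : Summable fun n => b n * (r' : ℂ) ^ n := by
        refine (hf r' ?_).summable
        rw [Complex.norm_real, Real.norm_eq_abs, abs_of_pos (hr0.trans hr'1)]
        exact hr'2
      -- bounded terms times geometric
      have h2 := h1.tendsto_atTop_zero.norm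
      rw [norm_zero] at h2
      obtain ⟨C, hC⟩ := h2.bddAbove_range
      have hC' : ∀ n, ‖b n * (r' : ℂ) ^ n‖ ≤ C := fun n => hC ⟨n, rfl⟩
      have hq0 : 0 < r / r' := div_pos hr0 (hr0.trans hr'1)
      have hq1 : r / r' < 1 := (div_lt_one (hr0.trans hr'1)).2 hr'1
      refine Summable.of_nonneg_of_le (fun n => norm_nonneg _) (fun n => ?_)
        ((summable_geometric_of_lt_one hq0.le hq1).mul_left C)
      have hr'0 : 0 < r' := hr0.trans hr'1
      calc ‖b n * (r : ℂ) ^ n‖ = ‖b n * (r' : ℂ) ^ n‖ * (r / r') ^ n := by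
            rw [norm_mul, norm_mul, norm_pow, norm_pow, Complex.norm_real, Complex.norm_real,
              Real.norm_eq_abs, Real.norm_eq_abs, abs_of_pos hr0, abs_of_pos hr'0, div_pow]
            field_simp
        _ ≤ C * (r / r') ^ n := by gcongr; exact hC' n
    have h3 := bessel_circle (fun n => b n * (r : ℂ) ^ n) hs M (fun z hz => by
      have h4 : ‖(r : ℂ) * z‖ < 1 := by
        rw [norm_mul, hz, mul_one, Complex.norm_real, Real.norm_eq_abs, abs_of_pos hr0]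
        exact hr1
      have h5 : ∑' n, b n * (r : ℂ) ^ n * z ^ n = f (r * z) := by
        rw [← (hf _ h4).tsum_eq]
        refine tsum_congr fun n => ?_
        rw [mul_pow]; ring
      rw [h5]
      exact hM _ h4) N
    refine le_trans (le_of_eq ?_) h3
    refine Finset.sum_congr rfl fun n _ => ?_
    rw [norm_mul, norm_pow, Complex.norm_real, Real.norm_eq_abs, abs_of_pos hr0]
  -- let `r → 1`
  have hcont : Continuous fun r : ℝ => ∑ n ∈ Finset.range N, (‖b n‖ * r ^ n) ^ 2 := by fun_prop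
  have hlim : Tendsto (fun r : ℝ => ∑ n ∈ Finset.range N, (‖b n‖ * r ^ n) ^ 2) (𝓝[<] 1)
      (𝓝 (∑ n ∈ Finset.range N, (‖b n‖ * 1 ^ n) ^ 2)) :=
    (hcont.tendsto 1).mono_left nhdsWithin_le_nhds
  have h6 := le_of_tendsto hlim (by
    filter_upwards [Ioo_mem_nhdsLT (show (0 : ℝ) < 1 by norm_num)] with r hr'
    exact hr r hr'.1 hr'.2)
  simpa using h6

/-- the function -/
def Lg (c : ℝ) (v : ℂ) : ℂ := (1 - v) ^ 2 * Complex.exp (-((c : ℂ) * v / (1 - v)))

/-- its derivative -/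
def Lg' (c : ℝ) (v : ℂ) : ℂ := -(2 * (1 - v) + c) * Complex.exp (-((c : ℂ) * v / (1 - v)))

theorem hasDerivAt_Lg (c : ℝ) {v : ℂ} (hv : v ≠ 1) : HasDerivAt (Lg c) (Lg' c v) v := by
  have h1 : (1 : ℂ) - v ≠ 0 := sub_ne_zero.2 (Ne.symm hv)
  have h2 : HasDerivAt (fun v : ℂ => 1 - v) (-1) v := by
    simpa using (hasDerivAt_id v).const_sub 1
  have h3 : HasDerivAt (fun v : ℂ => (c : ℂ) * v / (1 - v))
      (((c : ℂ) * (1 - v) - (c : ℂ) * v * (-1)) / (1 - v) ^ 2) v := by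
    have h4 : HasDerivAt (fun v : ℂ => (c : ℂ) * v) (c : ℂ) v := by
      simpa using (hasDerivAt_id v).const_mul (c : ℂ)
    exact h4.div h2 h1
  have h5 := ((h2.pow 2).mul (h3.neg.cexp))
  refine h5.congr_deriv ?_
  unfold Lg'
  simp only [Pi.neg_apply, Pi.pow_apply]
  push_cast
  field_simp
  ring

theorem norm_exp_le (c : ℝ) (hc : 0 < c) {v : ℂ} (hv : ‖v‖ ≤ 1) (hv1 : v ≠ 1) :
    ‖Complex.exp (-((c : ℂ) * v / (1 - v)))‖ ≤ Real.exp (c / 2) := by
  rw [Complex.norm_exp]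
  apply Real.exp_le_exp.2
  have h1 : (1 : ℂ) - v ≠ 0 := sub_ne_zero.2 (Ne.symm hv1)
  have h2 : (-((c : ℂ) * v / (1 - v))).re = -(c * (v / (1 - v)).re) := by
    rw [mul_div_assoc, Complex.neg_re, Complex.re_ofReal_mul]
  have h3 : (v / (1 - v)).re = (v.re - ‖v‖ ^ 2) / ‖1 - v‖ ^ 2 := by
    rw [Complex.div_re, ← Complex.normSq_eq_norm_sq, ← Complex.normSq_eq_norm_sq,
      Complex.normSq_apply v]
    simp only [Complex.sub_re, Complex.one_re, Complex.sub_im, Complex.one_im]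
    ring
  have h4 : ‖1 - v‖ ^ 2 = 1 - 2 * v.re + ‖v‖ ^ 2 := by
    rw [← Complex.normSq_eq_norm_sq, ← Complex.normSq_eq_norm_sq, Complex.normSq_apply,
      Complex.normSq_apply]
    simp only [Complex.sub_re, Complex.one_re, Complex.sub_im, Complex.one_im]
    ring
  have h5 : 0 < ‖1 - v‖ ^ 2 := by positivity
  have h6 : -(1 / 2) ≤ (v / (1 - v)).re := by
    rw [h3, le_div_iff₀ h5, h4]
    have : ‖v‖ ^ 2 ≤ 1 := by nlinarith [norm_nonneg v]
    linarith
  rw [h2]
  nlinarith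

theorem lag : LagStmt := by
  intro c hc
  have hdiff : DifferentiableOn ℂ (Lg c) (Metric.ball 0 1) := by
    intro v hv
    have hv1 : v ≠ 1 := by
      rintro rfl
      simp at hv
    exact (hasDerivAt_Lg c hv1).differentiableAt.differentiableWithinAt
  have hne : ∀ v : ℂ, ‖v‖ < 1 → v ≠ 1 := by
    rintro v hv rfl
    simp at hv
  have hdiff' : DifferentiableOn ℂ (deriv (Lg c)) (Metric.ball 0 1) :=
    hdiff.deriv Metric.isOpen_ball
  set a : ℕ → ℂ := fun n => ((n.factorial : ℂ))⁻¹ * iteratedDeriv n (Lg c) 0 with ha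
  set b : ℕ → ℂ := fun n => ((n.factorial : ℂ))⁻¹ * iteratedDeriv n (deriv (Lg c)) 0 with hb
  have hA : ∀ z : ℂ, ‖z‖ < 1 → HasSum (fun n => a n * z ^ n) (Lg c z) := by
    intro z hz
    have h1 := Complex.hasSum_taylorSeries_on_ball (r := 1) (c := 0) (f := Lg c) (by simpa using hdiff)
      (z := z) (by simpa using hz)
    refine h1.congr_fun ?_ |> fun h => h
    intro n
    simp only [ha, smul_eq_mul, sub_zero]
    ring
  have hB : ∀ z : ℂ, ‖z‖ < 1 → HasSum (fun n => b n * z ^ n) (deriv (Lg c) z) := by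
    intro z hz
    have h1 := Complex.hasSum_taylorSeries_on_ball (r := 1) (c := 0) (f := deriv (Lg c))
      (by simpa using hdiff') (z := z) (by simpa using hz)
    refine h1.congr_fun ?_ |> fun h => h
    intro n
    simp only [hb, smul_eq_mul, sub_zero]
    ring
  have hab : ∀ n : ℕ, b n = ((n : ℂ) + 1) * a (n + 1) := by
    intro n
    simp only [ha, hb]
    rw [iteratedDeriv_succ', Nat.factorial_succ]
    push_cast
    have : (n : ℂ) + 1 ≠ 0 := by exact_mod_cast Nat.succ_ne_zero n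
    field_simp
  have hbd : ∀ z : ℂ, ‖z‖ < 1 → ‖deriv (Lg c) z‖ ≤ (4 + c) * Real.exp (c / 2) := by
    intro z hz
    rw [(hasDerivAt_Lg c (hne z hz)).deriv]
    unfold Lg'
    rw [norm_mul]
    gcongr
    · rw [norm_neg]
      calc ‖2 * (1 - z) + (c : ℂ)‖ ≤ ‖2 * (1 - z)‖ + ‖(c : ℂ)‖ := norm_add_le _ _
        _ ≤ 4 + c := by
            rw [norm_mul, Complex.norm_real, Real.norm_eq_abs, abs_of_pos hc]
            have : ‖1 - z‖ ≤ 2 := by
              calc ‖1 - z‖ ≤ ‖(1 : ℂ)‖ + ‖z‖ := norm_sub_le _ _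
                _ ≤ 2 := by rw [norm_one]; linarith
            have h2 : ‖(2 : ℂ)‖ = 2 := by simp
            rw [h2]
            linarith
    · exact norm_exp_le c hc hz.le (hne z hz)
  have hsq := sq_summable_coeff b (deriv (Lg c)) _ hB hbd
  have hsum1 : Summable fun n => ‖a (n + 1)‖ := by
    have hinv : Summable fun n : ℕ => (1 : ℝ) / ((n : ℝ) + 1) ^ 2 := by
      have := (summable_nat_add_iff 1).2 (Real.summable_one_div_nat_pow.2 (by norm_num : 1 < 2))
      refine this.congr fun n => ?_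
      push_cast
      rfl
    refine Summable.of_nonneg_of_le (fun n => norm_nonneg _) (fun n => ?_) (hsq.add hinv)
    have hn : (0 : ℝ) < (n : ℝ) + 1 := by positivity
    have h1 : ‖b n‖ = ((n : ℝ) + 1) * ‖a (n + 1)‖ := by
      rw [hab, norm_mul]
      congr 1
      have : ((n : ℂ) + 1) = (((n : ℝ) + 1 : ℝ) : ℂ) := by push_cast; rfl
      rw [this, Complex.norm_real, Real.norm_eq_abs, abs_of_pos hn]
    have h2 : ‖a (n + 1)‖ = ‖b n‖ * (1 / ((n : ℝ) + 1)) := by
      rw [h1]; field_simp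
    rw [h2]
    have h3 : (1 : ℝ) / ((n : ℝ) + 1) ^ 2 = (1 / ((n : ℝ) + 1)) ^ 2 := by rw [div_pow, one_pow]
    rw [h3]
    nlinarith [sq_nonneg (‖b n‖ - 1 / ((n : ℝ) + 1)), sq_nonneg ‖b n‖,
      sq_nonneg (1 / ((n : ℝ) + 1))]
  have hsum : Summable fun n => ‖a n‖ := (summable_nat_add_iff 1).1 hsum1
  -- the sum is continuous on the closed disc
  have hcont : ContinuousOn (fun z : ℂ => ∑' n, a n * z ^ n) (Metric.closedBall 0 1) := by
    refine continuousOn_tsum (u := fun n => ‖a n‖) (fun n => by fun_prop) hsum fun n z hz => ?_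
    rw [norm_mul, norm_pow]
    have hz' : ‖z‖ ≤ 1 := by simpa using hz
    calc ‖a n‖ * ‖z‖ ^ n ≤ ‖a n‖ * 1 := by gcongr; exact pow_le_one₀ (norm_nonneg _) hz'
      _ = ‖a n‖ := mul_one _
  -- radial limits
  have hrad : ∀ v : ℂ, ‖v‖ ≤ 1 → Tendsto (fun r : ℝ => ∑' n, a n * ((r : ℂ) * v) ^ n) (𝓝[<] 1)
      (𝓝 (∑' n, a n * v ^ n)) := by
    intro v hv
    have h1 : Tendsto (fun r : ℝ => (r : ℂ) * v) (𝓝[<] 1) (𝓝[Metric.closedBall 0 1] v) := by
      rw [tendsto_nhdsWithin_iff]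
      constructor
      · have : Continuous fun r : ℝ => (r : ℂ) * v := by fun_prop
        have h2 := (this.tendsto 1).mono_left (nhdsWithin_le_nhds (s := Set.Iio 1))
        simpa using h2
      · filter_upwards [Ioo_mem_nhdsLT (show (0 : ℝ) < 1 by norm_num)] with r hr
        rw [mem_closedBall_zero_iff, norm_mul, Complex.norm_real, Real.norm_eq_abs,
          abs_of_pos hr.1]
        nlinarith [norm_nonneg v, hr.1, hr.2]
    have hv' : v ∈ Metric.closedBall (0 : ℂ) 1 := by simpa using hv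
    exact (hcont v hv').tendsto.comp h1
  have hin : ∀ v : ℂ, ‖v‖ ≤ 1 → ∀ r : ℝ, 0 < r → r < 1 →
      ∑' n, a n * ((r : ℂ) * v) ^ n = Lg c (r * v) := by
    intro v hv r hr0 hr1
    refine (hA _ ?_).tsum_eq
    rw [norm_mul, Complex.norm_real, Real.norm_eq_abs, abs_of_pos hr0]
    nlinarith [norm_nonneg v]
  refine ⟨a, hsum, ?_, ?_⟩
  · have h1 := hrad 1 (by simp)
    simp only [mul_one, one_pow] at h1
    have h2 : Tendsto (fun r : ℝ => ∑' n, a n * (r : ℂ) ^ n) (𝓝[<] 1) (𝓝 0) := by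
      have hev : (fun r : ℝ => ∑' n, a n * (r : ℂ) ^ n) =ᶠ[𝓝[<] 1] fun r : ℝ => Lg c r := by
        filter_upwards [Ioo_mem_nhdsLT (show (0 : ℝ) < 1 by norm_num)] with r hr
        have := hin 1 (by simp) r hr.1 hr.2
        simpa using this
      refine (tendsto_congr' hev).2 ?_
      refine squeeze_zero_norm' (a := fun r : ℝ => (1 - r) ^ 2 * Real.exp (c / 2)) ?_ ?_
      · filter_upwards [Ioo_mem_nhdsLT (show (0 : ℝ) < 1 by norm_num)] with r hr
        have hr1 : ‖(r : ℂ)‖ < 1 := by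
          rw [Complex.norm_real, Real.norm_eq_abs, abs_of_pos hr.1]; exact hr.2
        unfold Lg
        rw [norm_mul, norm_pow]
        have h3 : ‖(1 : ℂ) - (r : ℂ)‖ = 1 - r := by
          have : (1 : ℂ) - (r : ℂ) = ((1 - r : ℝ) : ℂ) := by push_cast; rfl
          rw [this, Complex.norm_real, Real.norm_eq_abs, abs_of_pos (by linarith [hr.2])]
        rw [h3]
        gcongr
        exact norm_exp_le c hc hr1.le (hne _ hr1)
      · have : Continuous fun r : ℝ => (1 - r) ^ 2 * Real.exp (c / 2) := by fun_prop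
        have h4 := (this.tendsto 1).mono_left (nhdsWithin_le_nhds (s := Set.Iio 1))
        simpa using h4
    exact tendsto_nhds_unique h1 h2
  · intro v hv hv1
    have h1 := hrad v hv
    have h2 : Tendsto (fun r : ℝ => ∑' n, a n * ((r : ℂ) * v) ^ n) (𝓝[<] 1) (𝓝 (Lg c v)) := by
      have hev : (fun r : ℝ => ∑' n, a n * ((r : ℂ) * v) ^ n) =ᶠ[𝓝[<] 1]
          fun r : ℝ => Lg c (r * v) := by
        filter_upwards [Ioo_mem_nhdsLT (show (0 : ℝ) < 1 by norm_num)] with r hr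
        exact hin v hv r hr.1 hr.2
      refine (tendsto_congr' hev).2 ?_
      have h3 : Tendsto (fun r : ℝ => (r : ℂ) * v) (𝓝[<] 1) (𝓝 v) := by
        have : Continuous fun r : ℝ => (r : ℂ) * v := by fun_prop
        have h4 := (this.tendsto 1).mono_left (nhdsWithin_le_nhds (s := Set.Iio 1))
        simpa using h4
      exact (hasDerivAt_Lg c hv1).continuousAt.tendsto.comp h3
    exact tendsto_nhds_unique h1 h2

end

end Pool.Agent.H78E.H72
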